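import Pool.Agent.Q111.HP.QU2

/-!
# Quillen's question for the rings `W[[X₀, …, X_{r+1}]]/(X₀^{a+1} X₁ - u)`, `W` a complete regular
local ring of dimension two, `u` a regular parameter of `W`
-/

set_option autoImplicit false

open IsLocalRing

noncomputable section

namespace Pool.Agent.Results.MP_3e5078_ag.QuillenHyperbolicPowers

open Pool.Agent.H40.BP

/-- the power series `X₀^{a+1} X₁ - u` -/
def rel (W : Type) [CommRing W] (u : W) (a r : ℕ) : MvPowerSeries (Fin (r + 2)) W :=
  MvPowerSeries.X 0 ^ (a + 1) * MvPowerSeries.X 1 - MvPowerSeries.C u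

/-- the ring `D = W[[X₀, …, X_{r+1}]]/(X₀^{a+1} X₁ - u)` -/
def D (W : Type) [CommRing W] (u : W) (a r : ℕ) : Type :=
  MvPowerSeries (Fin (r + 2)) W ⧸ Ideal.span {rel W u a r}

instance (W : Type) [CommRing W] (u : W) (a r : ℕ) : CommRing (D W u a r) :=
  Ideal.Quotient.commRing _

/-- the element `X₀` of `D` -/
def D.x (W : Type) [CommRing W] (u : W) (a r : ℕ) : D W u a r :=
  Ideal.Quotient.mk (Ideal.span {rel W u a r}) (MvPowerSeries.X 0)

/-- every finitely generated projective module over every polynomial ring `A[X_i | i ∈ ι]`,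
`ι` finite, is free -/
def AllFree (A : Type) [CommRing A] : Prop :=
  ∀ (ι : Type) [Finite ι] (P : Type) [AddCommGroup P] [Module (MvPolynomial ι A) P]
    [Module.Finite (MvPolynomial ι A) P] [Module.Projective (MvPolynomial ι A) P],
  Module.Free (MvPolynomial ι A) P

/-- **Quillen's question for `D = W[[X₀, …, X_{r+1}]]/(X₀^{a+1} X₁ - u)` and the regular parameter
`X₀`**: all projective modules over (the polynomial rings over) `D[1/X₀]` are free. -/
theorem result :
    ∀ (W : Type) [CommRing W] [IsRegularLocalRing W] [IsAdicComplete (maximalIdeal W) W],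
      ringKrullDim W = 2 → ∀ u : W, u ∈ maximalIdeal W → u ∉ maximalIdeal W ^ 2 → ∀ a r : ℕ,
        -- `D` is a regular local ring of dimension `r + 3` with the regular parameter `X₀`
        ringKrullDim (D W u a r) = ((r + 3 : ℕ) : WithBot ℕ∞) ∧
        (∃ _ : IsRegularLocalRing (D W u a r),
          D.x W u a r ∈ maximalIdeal (D W u a r) ∧
          D.x W u a r ∉ maximalIdeal (D W u a r) ^ 2) ∧
        AllFree (Localization.Away (D.x W u a r)) := by
  intro W _ _ _ hW u hu hu2 a r
  have hreg := Pool.Agent.Q111.HP.ph_reg W hW u hu hu2 r a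
  refine ⟨hreg.2, ?_, (allFree_iff_AF _).2 (Pool.Agent.Q111.HP.ph_H1 W hW u hu hu2 r a)⟩
  have h1 := hreg.1
  exact ⟨h1, Pool.Agent.Q111.HP.ph_X0 W hW u hu hu2 r a⟩

end Pool.Agent.Results.MP_3e5078_ag.QuillenHyperbolicPowers
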